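import Pool.Agent.ZES.StmtsG

/-! Squad ZES, row ADM. -/

set_option autoImplicit false

namespace Pool.Agent.ZES.H10

open Pool.Agent.ZES

theorem adm : AdmStmt := by
  intro V _ _ E hE m f hf
  refine ⟨?_, ?_⟩
  · intro q hq y
    refine Submodule.pow_induction_on_left' (M := E)
      (C := fun n g _ => (fun x => g (x + y) * q (x - y) ^ n) ∈ E ^ (2 * n)) ?_ ?_ ?_ hf
    · intro r
      have e : (fun x => (algebraMap ℂ (V → ℂ) r) (x + y) * q (x - y) ^ 0) =
          algebraMap ℂ (V → ℂ) r := by
        funext x
        rw [pow_zero, mul_one]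
        rfl
      rw [e, Nat.mul_zero, pow_zero]
      exact Submodule.algebraMap_mem r
    · intro g h i _ _ hg hh
      have e : (fun x => (g + h) (x + y) * q (x - y) ^ i) =
          (fun x => g (x + y) * q (x - y) ^ i) + (fun x => h (x + y) * q (x - y) ^ i) := by
        funext x
        show (g (x + y) + h (x + y)) * q (x - y) ^ i = _ + _
        rw [add_mul]
      rw [e]
      exact Submodule.add_mem _ hg hh
    · intro p hp i g _ hg
      have e : (fun x => (p * g) (x + y) * q (x - y) ^ i.succ) =
          (fun x => p (x + y) * q (x - y)) * (fun x => g (x + y) * q (x - y) ^ i) := by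
        funext x
        show p (x + y) * g (x + y) * q (x - y) ^ (i + 1) =
          (p (x + y) * q (x - y)) * (g (x + y) * q (x - y) ^ i)
        ring
      have e2 : E ^ (2 * i.succ) = (E * E) * E ^ (2 * i) := by
        rw [← pow_two, ← pow_add]
        congr 1
        rw [Nat.succ_eq_add_one]
        ring
      rw [e, e2]
      exact Submodule.mul_mem_mul (hE.addl p hp q hq y) hg
  · refine Submodule.pow_induction_on_left' (M := E)
      (C := fun n g _ => (fun x => g (-x)) ∈ E ^ n) ?_ ?_ ?_ hf
    · intro r
      rw [pow_zero]
      exact Submodule.algebraMap_mem r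
    · intro g h i _ _ hg hh
      exact Submodule.add_mem _ hg hh
    · intro p hp i g _ hg
      have e2 : E ^ i.succ = E * E ^ i := pow_succ' E i
      rw [e2]
      exact Submodule.mul_mem_mul (hE.neg p hp) hg

end Pool.Agent.ZES.H10
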