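import Pool.Agent.ZES.StmtsF

/-! Squad ZES, row FUQ: uniqueness of Fourier coefficients. -/

set_option autoImplicit false

namespace Pool.Agent.ZES.H10

open Pool.Agent.ZES MeasureTheory Topology
open scoped BigOperators

/-- the projection to the torus -/
noncomputable def qm (g : ℕ) : (Fin g → ℝ) → UnitAddTorus (Fin g) :=
  Pi.map fun _ => (fun t : ℝ => (t : UnitAddCircle))

theorem qm_quot (g : ℕ) : IsOpenQuotientMap (qm g) :=
  IsOpenQuotientMap.piMap fun _ => QuotientAddGroup.isOpenQuotientMap_mk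

theorem real_zero (g : ℕ) (F : (Fin g → ℂ) → ℂ) (hF : PE F) (h0 : ∀ k, fc F k = 0)
    (t : Fin g → ℝ) : F (fun i => ((t i : ℝ) : ℂ)) = 0 := by
  have hcont : Continuous (fun t : Fin g → ℝ => F (fun i => ((t i : ℝ) : ℂ))) := by
    refine hF.1.continuous.comp ?_
    exact continuous_pi fun i => Complex.continuous_ofReal.comp (continuous_apply i)
  let hh : C((Fin g → ℝ), ℂ) := ⟨fun t => F (fun i => ((t i : ℝ) : ℂ)), hcont⟩
  let qq : C((Fin g → ℝ), UnitAddTorus (Fin g)) := ⟨qm g, (qm_quot g).continuous⟩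
  have hqq : IsQuotientMap qq := (qm_quot g).isQuotientMap
  have hfac : Function.FactorsThrough hh qq := by
    intro a b hab
    have h1 : ∀ i, ∃ n : ℤ, b i = a i + n := by
      intro i
      have h2 : ((a i : ℝ) : UnitAddCircle) = ((b i : ℝ) : UnitAddCircle) := congrFun hab i
      have h3 := (QuotientAddGroup.eq_iff_sub_mem.1 h2.symm)
      obtain ⟨n, hn⟩ := AddSubgroup.mem_zmultiples_iff.1 h3
      refine ⟨n, ?_⟩
      have h4 : (n : ℝ) = b i - a i := by
        rw [← hn, zsmul_eq_mul, mul_one]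
      rw [h4]
      ring
    choose n hn using h1
    have h5 := hF.2 (fun i => ((a i : ℝ) : ℂ)) n
    show F (fun i => ((a i : ℝ) : ℂ)) = F (fun i => ((b i : ℝ) : ℂ))
    rw [← h5]
    congr 1
    funext i
    rw [hn i]
    push_cast
    ring
  let f : C(UnitAddTorus (Fin g), ℂ) := hqq.lift hh hfac
  have hf : ∀ t, f (qm g t) = F (fun i => ((t i : ℝ) : ℂ)) := by
    intro t
    have h1 := congrArg (fun u : C((Fin g → ℝ), ℂ) => u t) (hqq.lift_comp hh hfac)
    exact h1
  have hco : ∀ n, UnitAddTorus.mFourierCoeff f n = 0 := by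
    intro n
    rw [UnitAddTorus.mFourierCoeff_eq_integral f n 0]
    have hset : {x : Fin g → ℝ | ∀ i, x i ∈ Set.Ioc ((0 : Fin g → ℝ) i) ((0 : Fin g → ℝ) i + 1)} =
        Set.pi Set.univ fun i => Set.Ioc ((0 : Fin g → ℝ) i) ((1 : Fin g → ℝ) i) := by
      ext x
      simp only [Set.mem_ofPred_eq, Set.mem_pi, Set.mem_univ, true_imp_iff, Pi.zero_apply,
        Pi.one_apply, zero_add]
    rw [hset]
    have hae : (Set.pi Set.univ fun i => Set.Ioc ((0 : Fin g → ℝ) i) ((1 : Fin g → ℝ) i))
        =ᵐ[(volume : Measure (Fin g → ℝ))] Set.Icc (0 : Fin g → ℝ) 1 :=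
      MeasureTheory.Measure.univ_pi_Ioc_ae_eq_Icc
    rw [setIntegral_congr_set hae, ← h0 n]
    unfold fc
    refine integral_congr_ae (Filter.Eventually.of_forall fun x => ?_)
    have h2 : UnitAddTorus.mFourier (-n) (fun i => ((x i : ℝ) : UnitAddCircle)) =
        Complex.exp (-(2 * Real.pi * Complex.I * ∑ i, (n i : ℂ) * ((x i : ℝ) : ℂ))) := by
      show ∏ i, fourier ((-n) i) ((x i : ℝ) : UnitAddCircle) = _
      have h3 : ∀ i, (fourier ((-n) i) ((x i : ℝ) : UnitAddCircle) : ℂ) =
          Complex.exp (-(2 * Real.pi * Complex.I * ((n i : ℂ) * ((x i : ℝ) : ℂ)))) := by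
        intro i
        rw [fourier_coe_apply]
        congr 1
        simp only [Pi.neg_apply]
        push_cast
        ring
      rw [Finset.prod_congr rfl fun i _ => h3 i, ← Complex.exp_sum]
      congr 1
      rw [Finset.mul_sum, ← Finset.sum_neg_distrib]
    show UnitAddTorus.mFourier (-n) (fun i => ((x i : ℝ) : UnitAddCircle)) •
      f (fun i => ((x i : ℝ) : UnitAddCircle)) = _
    rw [h2, smul_eq_mul]
    congr 1
    exact hf x
  have hsum : Summable (UnitAddTorus.mFourierCoeff f) := by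
    have h1 : UnitAddTorus.mFourierCoeff (f : UnitAddTorus (Fin g) → ℂ) = fun _ => 0 :=
      funext hco
    rw [h1]
    exact summable_zero
  have h1 := UnitAddTorus.hasSum_mFourier_series_apply_of_summable hsum (qm g t)
  have h2 : (fun i => UnitAddTorus.mFourierCoeff f i • UnitAddTorus.mFourier i (qm g t)) =
      fun _ => (0 : ℂ) := by
    funext i
    rw [hco i, zero_smul]
  rw [h2] at h1
  rw [← hf t]
  exact h1.unique hasSum_zero

theorem line_zero (h : ℂ → ℂ) (hd : Differentiable ℂ h) (h0 : ∀ s : ℝ, h (s : ℂ) = 0) (z : ℂ) :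
    h z = 0 := by
  have ha : AnalyticOnNhd ℂ h Set.univ := fun x _ => hd.analyticAt x
  have hb : AnalyticOnNhd ℂ (fun _ : ℂ => (0 : ℂ)) Set.univ := fun x _ => analyticAt_const
  have ht : Filter.Tendsto (fun n : ℕ => (((1 / ((n : ℝ) + 1) : ℝ)) : ℂ)) Filter.atTop
      (𝓝[≠] (0 : ℂ)) := by
    refine tendsto_nhdsWithin_iff.2 ⟨?_, Filter.Eventually.of_forall fun n => ?_⟩
    · have h1 := (Complex.continuous_ofReal.tendsto 0).comp
        (tendsto_one_div_add_atTop_nhds_zero_nat (𝕜 := ℝ))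
      rw [Complex.ofReal_zero] at h1
      exact h1
    · have h1 : (1 / ((n : ℝ) + 1) : ℝ) ≠ 0 := by positivity
      show (((1 / ((n : ℝ) + 1) : ℝ)) : ℂ) ≠ 0
      exact_mod_cast h1
  have hfr : ∃ᶠ z in 𝓝[≠] (0 : ℂ), h z = (fun _ : ℂ => (0 : ℂ)) z :=
    ht.frequently (Filter.Eventually.frequently (Filter.Eventually.of_forall fun n => h0 _))
  have h1 := AnalyticOnNhd.eq_of_frequently_eq ha hb hfr
  exact congrFun h1 z

theorem fuq : FuqStmt := by
  intro g F hF h0 x
  have hd : Differentiable ℂ (fun s : ℂ => F (fun i => ((x i).re : ℂ) + s * ((x i).im : ℂ))) := by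
    refine hF.1.comp ?_
    refine differentiable_pi.2 fun i => ?_
    exact (differentiable_const _).add (differentiable_id.mul_const _)
  have h1 := line_zero _ hd (fun s => by
    have h2 := real_zero g F hF h0 (fun i => (x i).re + s * (x i).im)
    rw [← h2]
    congr 1
    funext i
    push_cast
    rfl) Complex.I
  have h3 : (fun i => ((x i).re : ℂ) + Complex.I * ((x i).im : ℂ)) = x := by
    funext i
    rw [mul_comm]
    exact Complex.re_add_im (x i)
  rw [← h3]
  exact h1

end Pool.Agent.ZES.H10
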